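import Mathlib

/-!
# Linear lower bound for the number of classes of abelian squares: definitions and statements

`F : ℤ → ℤ` is monotone; the column over `x` is the integer interval `[F (x - 1), F x]`.
`Tch F c u l`: there is a point `(c, y)` in the column over `c` such that `(c - u, y - l)` and
`(c + u, y + l)` are in the columns over `c - u` and `c + u` (an arithmetic progression of three
points of the path with difference `(u, l)`).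
-/

set_option autoImplicit false

namespace Pool.Agent.H188.LB

def Tch (F : ℤ → ℤ) (c u l : ℤ) : Prop :=
  ∃ y : ℤ, F (c - u - 1) ≤ y - l ∧ y - l ≤ F (c - u) ∧ F (c - 1) ≤ y ∧ y ≤ F c ∧
    F (c + u - 1) ≤ y + l ∧ y + l ≤ F (c + u)

def Plus (F : ℤ → ℤ) (c u : ℤ) : Prop := 2 * F c + 1 ≤ F (c - u - 1) + F (c + u - 1)

def Minus (F : ℤ → ℤ) (c u : ℤ) : Prop := F (c - u) + F (c + u) + 1 ≤ 2 * F (c - 1)

/-- some arithmetic progression of scale `u` has its centre within `20 u` of `x` -/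
def Nr (F : ℤ → ℤ) (x u : ℤ) : Prop :=
  ∃ c l : ℤ, x - 20 * u ≤ c ∧ c ≤ x + 20 * u ∧ Tch F c u l

open Classical in
/-- the number of `u ∈ [S, 2 S)` with `B u` -/
noncomputable def cnt (B : ℤ → Prop) (S : ℤ) : ℕ := ((Finset.Ico S (2 * S)).filter B).card

/-- pattern -/
def S_pattern : Prop := ∀ (F : ℤ → ℤ), Monotone F → ∀ (u c0 c1 : ℤ),
  (∀ c, c0 ≤ c → c ≤ c1 → ∀ l, ¬ Tch F c u l) → ¬ Plus F c0 u →
  ∀ c, c0 < c → c ≤ c1 → Minus F c u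

/-- linking -/
def S_link : Prop := ∀ (F : ℤ → ℤ), Monotone F → ∀ (t u p q : ℤ), 1 ≤ t → 1 ≤ u →
  2 * t + 2 * u ≤ q - p → (∀ c, p ≤ c → c ≤ q → Plus F c t) →
  (∀ c, p ≤ c → c ≤ q → Minus F c u) → False

/-- good scales -/
def S_good : Prop := ∀ (B : ℤ → Prop) (g L d : ℤ), 1 ≤ g → 4 * g ≤ d →
  (∀ S, 5 * g < 4 * S → S ≤ L → 32 * (cnt B S : ℤ) < S) →
  (5 * d + 16 ≤ 16 * L → ∃ φ, 5 * d < 16 * φ ∧ 2 * φ ≤ d ∧ ¬ B φ) ∧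
  (21 * d + 16 ≤ 16 * L → ∃ φ, 5 * d < 16 * φ ∧ 2 * φ ≤ d ∧ ¬ B φ ∧ ¬ B (d - φ) ∧ ¬ B (d + φ))

/-- the chord lemma on the main part -/
def S_reg : Prop := ∀ (F : ℤ → ℤ), Monotone F → ∀ (a b α β g1 g2 : ℤ), 1 ≤ g1 → 1 ≤ g2 →
  24 * (g1 + g2) ≤ b - a → F (a - 1) ≤ α → F (b - 1) ≤ β →
  (∀ d, 4 * g1 ≤ d → 2 * d ≤ b - a → ∃ φ, 5 * d < 16 * φ ∧ 2 * φ ≤ d ∧ Plus F (a + d) φ) →
  (∀ d, 4 * g1 ≤ d → d < 8 * g1 → ∃ φ, 5 * d < 16 * φ ∧ 2 * φ ≤ d ∧ Plus F (a + d) φ ∧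
    Plus F (a + (d - φ)) (d - φ) ∧ Plus F (a + (d + φ)) (d + φ)) →
  (∀ d, 4 * g2 ≤ d → 2 * d ≤ b - a → ∃ φ, 5 * d < 16 * φ ∧ 2 * φ ≤ d ∧ Plus F (b - d) φ) →
  (∀ d, 4 * g2 ≤ d → d < 8 * g2 → ∃ φ, 5 * d < 16 * φ ∧ 2 * φ ≤ d ∧ Plus F (b - d) φ ∧
    Plus F (b - (d - φ)) (d - φ) ∧ Plus F (b - (d + φ)) (d + φ)) →
  (∀ z, a + 4 * g1 ≤ z → z ≤ b - 4 * g2 → (b - a) * (F (z - 1) - α) < (β - α) * (z - a)) ∧
  (∀ d, 4 * g1 ≤ d → d < 8 * g1 → (b - a) * (F (a + d) - α) < (β - α) * d) ∧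
  (∀ d, 4 * g2 ≤ d → d < 8 * g2 → (b - a) * (F (b - d) - β) < -((β - α) * d))

/-- selection of good points (Vitali) -/
def S_sel : Prop := ∀ (g : ℤ → ℤ) (p q M : ℤ), p ≤ q → 0 ≤ M → (∀ x, 1 ≤ g x) →
  (∀ x, p - 625 * M ≤ x → x ≤ q + 625 * M → g x ≤ M) →
  ∃ I : Finset ℤ, (∀ x ∈ I, p - 500 * M ≤ x ∧ x ≤ q + 500 * M ∧
      ∀ x', x - 125 * g x ≤ x' → x' ≤ x + 125 * g x → 4 * g x' ≤ 5 * g x) ∧
    (∀ x ∈ I, ∀ y ∈ I, x < y → 150 * (g x + g y) < y - x) ∧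
    q - p + 1 ≤ 1601 * ∑ x ∈ I, g x

/-- from words to columns -/
def S_word : Prop := ∀ (w : List Bool) (b : Bool), ∃ F : ℤ → ℤ, Monotone F ∧
  ∀ c u l : ℤ, 1 ≤ u → u ≤ c → c + u ≤ w.count b → Tch F c u l →
    ∃ x y : List Bool, x ≠ [] ∧ y ≠ [] ∧ (x ++ y) <:+: w ∧
      (x.count b : ℤ) = u ∧ (x.count (!b) : ℤ) = l ∧ (y.count b : ℤ) = u ∧ (y.count (!b) : ℤ) = l

end Pool.Agent.H188.LB
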