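import Pool.Agent.H188.LB.Defs

/-!
# Good scales by counting
-/

namespace Pool.Agent.H188.LB

theorem good_cnt_ge (B : ℤ → Prop) (S : ℤ) (T : Finset ℤ) (f : ℤ → ℤ) (hf : Function.Injective f)
    (h : ∀ φ ∈ T, S ≤ f φ ∧ f φ < 2 * S ∧ B (f φ)) : T.card ≤ cnt B S := by
  classical
  unfold cnt
  apply Finset.card_le_card_of_injOn f
  · intro φ hφ
    obtain ⟨h1, h2, h3⟩ := h φ (Finset.mem_coe.1 hφ)
    apply Finset.mem_coe.2
    rw [Finset.mem_filter, Finset.mem_Ico]
    exact ⟨⟨h1, h2⟩, h3⟩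
  · exact hf.injOn

theorem t_good : S_good := by
  classical
  intro B g L d hg hd h
  have hd4 : 4 ≤ d := by omega
  obtain ⟨S, hS⟩ : ∃ S : ℤ, S = 5 * d / 16 + 1 := ⟨_, rfl⟩
  obtain ⟨S1, hS1⟩ : ∃ S1 : ℤ, S1 = d - d / 2 := ⟨_, rfl⟩
  obtain ⟨S2, hS2⟩ : ∃ S2 : ℤ, S2 = d + S := ⟨_, rfl⟩
  have hcard : ((Finset.Icc S (d / 2)).card : ℤ) = d / 2 + 1 - S := by
    rw [Int.card_Icc]
    omega
  constructor
  · intro hL
    by_contra hcon
    push Not at hcon
    have h0 := h S (by omega) (by omega)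
    have h1 : (Finset.Icc S (d / 2)).card ≤ cnt B S := by
      apply good_cnt_ge B S _ (fun x => x) (fun _ _ e => e)
      intro φ hφ
      rw [Finset.mem_Icc] at hφ
      exact ⟨hφ.1, by omega, hcon φ (by omega) (by omega)⟩
    have h2 : ((Finset.Icc S (d / 2)).card : ℤ) ≤ (cnt B S : ℤ) := by exact_mod_cast h1
    omega
  · intro hL
    by_contra hcon
    push Not at hcon
    have h0 := h S (by omega) (by omega)
    have h1 := h S1 (by omega) (by omega)
    have h2 := h S2 (by omega) (by omega)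
    have e0 : ((Finset.Icc S (d / 2)).filter (fun φ => B φ)).card ≤ cnt B S := by
      apply good_cnt_ge B S _ (fun x => x) (fun _ _ e => e)
      intro φ hφ
      rw [Finset.mem_filter, Finset.mem_Icc] at hφ
      exact ⟨hφ.1.1, by omega, hφ.2⟩
    have e1 : ((Finset.Icc S (d / 2)).filter (fun φ => B (d - φ))).card ≤ cnt B S1 := by
      apply good_cnt_ge B S1 _ (fun x => d - x) (fun _ _ e => by
        have e' : d - _ = d - _ := e
        omega)
      intro φ hφ
      rw [Finset.mem_filter, Finset.mem_Icc] at hφ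
      exact ⟨by omega, by omega, hφ.2⟩
    have e2 : ((Finset.Icc S (d / 2)).filter (fun φ => B (d + φ))).card ≤ cnt B S2 := by
      apply good_cnt_ge B S2 _ (fun x => d + x) (fun _ _ e => by
        have e' : d + _ = d + _ := e
        omega)
      intro φ hφ
      rw [Finset.mem_filter, Finset.mem_Icc] at hφ
      exact ⟨by omega, by omega, hφ.2⟩
    have e3 : (Finset.Icc S (d / 2)) ⊆ ((Finset.Icc S (d / 2)).filter (fun φ => B φ)) ∪
        (((Finset.Icc S (d / 2)).filter (fun φ => B (d - φ))) ∪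
        ((Finset.Icc S (d / 2)).filter (fun φ => B (d + φ)))) := by
      intro φ hφ
      have hφ' := Finset.mem_Icc.1 hφ
      rw [Finset.mem_union, Finset.mem_union, Finset.mem_filter, Finset.mem_filter,
        Finset.mem_filter]
      by_cases b0 : B φ
      · exact Or.inl ⟨hφ, b0⟩
      · by_cases b1 : B (d - φ)
        · exact Or.inr (Or.inl ⟨hφ, b1⟩)
        · exact Or.inr (Or.inr ⟨hφ, hcon φ (by omega) (by omega) b0 b1⟩)
    have e4 := (Finset.card_le_card e3).trans ((Finset.card_union_le _ _).trans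
      (Nat.add_le_add_left (Finset.card_union_le _ _) _))
    have e5 : ((Finset.Icc S (d / 2)).card : ℤ) ≤ (cnt B S : ℤ) + (cnt B S1 : ℤ) + (cnt B S2 : ℤ) := by
      have : (Finset.Icc S (d / 2)).card ≤ cnt B S + cnt B S1 + cnt B S2 := by omega
      exact_mod_cast this
    omega

end Pool.Agent.H188.LB
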