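import Pool.Agent.H188.LB.Pattern

set_option autoImplicit false

namespace Pool.Agent.H188.LB

theorem exists_not_of_cnt {B : ℤ → Prop} {S : ℤ} (hS : 1 ≤ S) (h : 32 * (cnt B S : ℤ) < S) :
    ∃ t, S ≤ t ∧ t < 2 * S ∧ ¬ B t := by
  classical
  by_contra hcon
  push Not at hcon
  have h1 : cnt B S = (Finset.Ico S (2 * S)).card := by
    unfold cnt
    congr 1
    apply Finset.filter_true_of_mem
    intro t ht
    rw [Finset.mem_Ico] at ht
    exact hcon t ht.1 ht.2
  rw [h1, Int.card_Ico] at h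
  have h2 : ((2 * S - S).toNat : ℤ) = S := by omega
  rw [h2] at h
  linarith

/-- Lemma A: every untouched scale which is not much below the critical scale is convex. -/
theorem lemA (hlink : S_link) {F : ℤ → ℤ} (hF : Monotone F) {x G L : ℤ}
    (hglob : ∀ u, L < 4 * u → u ≤ L → ∃ t, 2 * u ≤ t ∧ t < 4 * u ∧
      ∀ c, x - 20 * u ≤ c → c ≤ x + 20 * u → Plus F c t)
    (hsparse : ∀ S, G < S → S ≤ L → 32 * (cnt (Nr F x) S : ℤ) < S) :
    ∀ u, 1 ≤ u → u ≤ L → G < 2 * u → ¬ Nr F x u →
      ∀ c, x - 10 * u ≤ c → c ≤ x + 10 * u → Plus F c u := by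
  have key : ∀ n : ℕ, ∀ u, 1 ≤ u → L - u ≤ n → u ≤ L → G < 2 * u → ¬ Nr F x u →
      ∀ c, x - 10 * u ≤ c → c ≤ x + 10 * u → Plus F c u := by
    intro n
    induction n using Nat.strong_induction_on with
    | _ n ih =>
      intro u hu hn huL hG hNr c0 hc1 hc2
      by_contra hcon
      have hT : ∃ t, 2 * u ≤ t ∧ t < 4 * u ∧
          ∀ c, x - 20 * u ≤ c → c ≤ x + 20 * u → Plus F c t := by
        by_cases h4 : L < 4 * u
        · exact hglob u h4 huL
        · push Not at h4
          obtain ⟨t, ht1, ht2, ht3⟩ := exists_not_of_cnt (S := 2 * u) (by omega)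
            (hsparse (2 * u) hG (by omega))
          refine ⟨t, ht1, by omega, ?_⟩
          intro c hca hcb
          exact ih (L - t).toNat (by omega) t (by omega) (by omega) (by omega) (by omega) ht3 c
            (by omega) (by omega)
      obtain ⟨t, ht1, ht2, ht3⟩ := hT
      have hpat := t_pattern F hF u c0 (x + 20 * u) (fun c h1 h2 l hl =>
        hNr ⟨c, l, by omega, h2, hl⟩) hcon
      exact hlink F hF t u (x + 10 * u + 1) (x + 20 * u) (by omega) hu (by omega)
        (fun c h1 h2 => ht3 c (by omega) h2) (fun c h1 h2 => hpat c (by omega) h2)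
  intro u hu huL hG hNr
  exact key (L - u).toNat u hu (by omega) huL hG hNr

end Pool.Agent.H188.LB
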