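import Pool.Agent.H188.LB.Defs

set_option autoImplicit false

namespace Pool.Agent.H188.LB

/-- difference with step `u` -/
def lkD (u : ℤ) (H : ℤ → ℤ) : ℤ → ℤ := fun z => H (z + u) - H z

/-- sum of `t` consecutive values -/
def lkS (t : ℕ) (H : ℤ → ℤ) : ℤ → ℤ := fun z => ∑ i ∈ Finset.range t, H (z + i)

theorem lk_comm1 (t u : ℕ) (H : ℤ → ℤ) : lkS t (lkD u H) = lkS u (lkD t H) := by
  funext z
  unfold lkS lkD
  induction t with
  | zero => simp
  | succ t ih =>
    rw [Finset.sum_range_succ, ih]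
    have h1 : ∑ i ∈ Finset.range u, (H (z + i + ((t + 1 : ℕ) : ℤ)) - H (z + i)) =
        ∑ i ∈ Finset.range u, (H (z + i + (t : ℤ)) - H (z + i)) +
        ∑ i ∈ Finset.range u, ((fun i : ℕ => H (z + t + (i : ℤ))) (i + 1) -
          (fun i : ℕ => H (z + t + (i : ℤ))) i) := by
      rw [← Finset.sum_add_distrib]
      refine Finset.sum_congr rfl (fun i _ => ?_)
      have e1 : z + (i : ℤ) + ((t + 1 : ℕ) : ℤ) = z + t + ((i + 1 : ℕ) : ℤ) := by
        push_cast; ring
      have e2 : z + (i : ℤ) + (t : ℤ) = z + t + (i : ℤ) := by ring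
      simp only [e1, e2]
      ring
    rw [h1, Finset.sum_range_sub (fun i : ℕ => H (z + t + (i : ℤ)))]
    simp

theorem lk_comm2 (a : ℤ) (t : ℕ) (H : ℤ → ℤ) : lkS t (lkD a H) = lkD a (lkS t H) := by
  funext z
  unfold lkS lkD
  rw [← Finset.sum_sub_distrib]
  refine Finset.sum_congr rfl (fun i _ => ?_)
  rw [add_right_comm]

theorem lk_ident (t u : ℕ) (F : ℤ → ℤ) :
    lkS t (lkS t (lkD u (lkD u F))) = lkS u (lkS u (lkD t (lkD t F))) := by
  rw [lk_comm2 u t (lkD u F), lk_comm1 t u F, lk_comm1 t u (lkS u (lkD t F)),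
    ← lk_comm2 t u (lkD t F)]

theorem t_link : S_link := by
  intro F hF t u p q ht hu hpq hP hM
  obtain ⟨t, rfl⟩ := Int.eq_ofNat_of_zero_le (by omega : 0 ≤ t)
  obtain ⟨u, rfl⟩ := Int.eq_ofNat_of_zero_le (by omega : 0 ≤ u)
  have key := congrFun (lk_ident t u F) (max (p - u) (p - t - 1))
  obtain ⟨z, hz⟩ : ∃ z, max (p - (u : ℤ)) (p - t - 1) = z := ⟨_, rfl⟩
  rw [hz] at key
  have hz1 : p - u ≤ z := by rw [← hz]; exact le_max_left _ _
  have hz2 : p - t - 1 ≤ z := by rw [← hz]; exact le_max_right _ _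
  have hz3 : z = p - u ∨ z = p - t - 1 := by
    rcases max_choice (p - (u : ℤ)) (p - t - 1) with h | h
    · left; rw [← hz, h]
    · right; rw [← hz, h]
  have hL : lkS t (lkS t (lkD u (lkD u F))) z ≤ 0 := by
    unfold lkS lkD
    refine Finset.sum_nonpos (fun i hi => Finset.sum_nonpos (fun j hj => ?_))
    rw [Finset.mem_range] at hi hj
    have h1 := hM (z + i + j + u) (by omega) (by omega)
    unfold Minus at h1
    have h2 : F (z + i + j + u - 1) ≤ F (z + i + j + u) := hF (by omega)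
    have e1 : z + (i : ℤ) + j + u - u = z + i + j := by ring
    rw [e1] at h1
    linarith
  have hR : 0 < lkS u (lkS u (lkD t (lkD t F))) z := by
    unfold lkS lkD
    have hne : (Finset.range u).Nonempty := Finset.nonempty_range_iff.mpr (by omega)
    refine Finset.sum_pos (fun i hi => Finset.sum_pos (fun j hj => ?_) hne) hne
    rw [Finset.mem_range] at hi hj
    have h1 := hP (z + i + j + t + 1) (by omega) (by omega)
    unfold Plus at h1
    have h2 : F (z + i + j + t) ≤ F (z + i + j + t + 1) := hF (by omega)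
    have e1 : z + (i : ℤ) + j + t + 1 - t - 1 = z + i + j := by ring
    have e2 : z + (i : ℤ) + j + t + 1 + t - 1 = z + i + j + t + t := by ring
    rw [e1, e2] at h1
    linarith
  rw [key] at hL
  exact absurd hR (not_lt.mpr hL)

end Pool.Agent.H188.LB
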