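import Pool.Agent.H188.LB.Defs

/-!
# The chord lemma on the main part
-/

set_option autoImplicit false

namespace Pool.Agent.H188.LB

namespace RegL

section

variable {e e' : ℤ → ℤ} {P : ℤ → ℤ → Prop} {W a b g1 g2 : ℤ}

/-- the maximum is not in the left half -/
lemma half (hW : 0 < W) (hg1 : 1 ≤ g1) (hg2 : 1 ≤ g2) (hab : 24 * (g1 + g2) ≤ b - a)
    (hP : ∀ c φ, P c φ → 2 * e' c + W ≤ e (c - φ) + e (c + φ)) (hee : ∀ z, e z ≤ e' z)
    (hea : e a ≤ 0)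
    (h1 : ∀ d, 4 * g1 ≤ d → 2 * d ≤ b - a → ∃ φ, 5 * d < 16 * φ ∧ 2 * φ ≤ d ∧ P (a + d) φ)
    (h2 : ∀ d, 4 * g1 ≤ d → d < 8 * g1 → ∃ φ, 5 * d < 16 * φ ∧ 2 * φ ≤ d ∧ P (a + d) φ ∧
      P (a + (d - φ)) (d - φ) ∧ P (a + (d + φ)) (d + φ))
    (z : ℤ) (hz1 : a + 4 * g1 ≤ z) (hz2 : 2 * (z - a) ≤ b - a)
    (hmax : ∀ y, a + 4 * g1 ≤ y → y ≤ b - 4 * g2 → e y ≤ e z) (hm : 0 ≤ e z) : False := by
  obtain ⟨d, rfl⟩ : ∃ d, z = a + d := ⟨z - a, by ring⟩
  have hd : 4 * g1 ≤ d := by linarith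
  by_cases h8 : 8 * g1 ≤ d
  · obtain ⟨φ, k1, k2, k3⟩ := h1 d hd (by linarith)
    have k4 := hP _ _ k3
    have k5 := hmax (a + d - φ) (by linarith) (by linarith)
    have k6 := hmax (a + d + φ) (by linarith) (by linarith)
    have k7 := hee (a + d)
    linarith
  · obtain ⟨φ, k1, k2, k3, k4, k5⟩ := h2 d hd (by linarith)
    have l3 := hP _ _ k3
    have l4 := hP _ _ k4
    have l5 := hP _ _ k5
    rw [show a + (d - φ) - (d - φ) = a by ring] at l4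
    rw [show a + (d + φ) - (d + φ) = a by ring] at l5
    have m4 := hmax (a + (d - φ) + (d - φ)) (by linarith) (by linarith)
    have m5 := hmax (a + (d + φ) + (d + φ)) (by linarith) (by linarith)
    have n3 := hee (a + d)
    have n4 := hee (a + (d - φ))
    have n5 := hee (a + (d + φ))
    rw [show a + d - φ = a + (d - φ) by ring, show a + d + φ = a + (d + φ) by ring] at l3
    linarith

/-- the edge -/
lemma edge (hW : 0 < W) (hg1 : 1 ≤ g1) (hg2 : 1 ≤ g2) (hab : 24 * (g1 + g2) ≤ b - a)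
    (hP : ∀ c φ, P c φ → 2 * e' c + W ≤ e (c - φ) + e (c + φ)) (hee : ∀ z, e z ≤ e' z)
    (hea : e a ≤ 0)
    (h2 : ∀ d, 4 * g1 ≤ d → d < 8 * g1 → ∃ φ, 5 * d < 16 * φ ∧ 2 * φ ≤ d ∧ P (a + d) φ ∧
      P (a + (d - φ)) (d - φ) ∧ P (a + (d + φ)) (d + φ))
    (hneg : ∀ y, a + 4 * g1 ≤ y → y ≤ b - 4 * g2 → e y < 0) (d : ℤ) (hd : 4 * g1 ≤ d)
    (hd8 : d < 8 * g1) : e' (a + d) < 0 := by
  obtain ⟨φ, k1, k2, k3, k4, k5⟩ := h2 d hd hd8
  have l3 := hP _ _ k3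
  have l4 := hP _ _ k4
  have l5 := hP _ _ k5
  rw [show a + (d - φ) - (d - φ) = a by ring] at l4
  rw [show a + (d + φ) - (d + φ) = a by ring] at l5
  have m4 := hneg (a + (d - φ) + (d - φ)) (by linarith) (by linarith)
  have m5 := hneg (a + (d + φ) + (d + φ)) (by linarith) (by linarith)
  have n4 := hee (a + (d - φ))
  have n5 := hee (a + (d + φ))
  rw [show a + d - φ = a + (d - φ) by ring, show a + d + φ = a + (d + φ) by ring] at l3
  linarith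

/-- the reflected data -/
lemma refl (hP : ∀ c φ, P c φ → 2 * e' c + W ≤ e (c - φ) + e (c + φ)) :
    ∀ c φ, P (a + b - c) φ →
      2 * e' (a + b - c) + W ≤ e (a + b - (c - φ)) + e (a + b - (c + φ)) := by
  intro c φ h
  have k := hP _ _ h
  rw [show a + b - (c - φ) = a + b - c + φ by ring, show a + b - (c + φ) = a + b - c - φ by ring]
  linarith

lemma core (hW : 0 < W) (hg1 : 1 ≤ g1) (hg2 : 1 ≤ g2) (hab : 24 * (g1 + g2) ≤ b - a)
    (hP : ∀ c φ, P c φ → 2 * e' c + W ≤ e (c - φ) + e (c + φ)) (hee : ∀ z, e z ≤ e' z)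
    (hea : e a ≤ 0) (heb : e b ≤ 0)
    (h1 : ∀ d, 4 * g1 ≤ d → 2 * d ≤ b - a → ∃ φ, 5 * d < 16 * φ ∧ 2 * φ ≤ d ∧ P (a + d) φ)
    (h2 : ∀ d, 4 * g1 ≤ d → d < 8 * g1 → ∃ φ, 5 * d < 16 * φ ∧ 2 * φ ≤ d ∧ P (a + d) φ ∧
      P (a + (d - φ)) (d - φ) ∧ P (a + (d + φ)) (d + φ))
    (h3 : ∀ d, 4 * g2 ≤ d → 2 * d ≤ b - a → ∃ φ, 5 * d < 16 * φ ∧ 2 * φ ≤ d ∧ P (b - d) φ)
    (h4 : ∀ d, 4 * g2 ≤ d → d < 8 * g2 → ∃ φ, 5 * d < 16 * φ ∧ 2 * φ ≤ d ∧ P (b - d) φ ∧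
      P (b - (d - φ)) (d - φ) ∧ P (b - (d + φ)) (d + φ)) :
    (∀ z, a + 4 * g1 ≤ z → z ≤ b - 4 * g2 → e z < 0) ∧
    (∀ d, 4 * g1 ≤ d → d < 8 * g1 → e' (a + d) < 0) ∧
    (∀ d, 4 * g2 ≤ d → d < 8 * g2 → e' (b - d) < 0) := by
  have h3' : ∀ d, 4 * g2 ≤ d → 2 * d ≤ b - a → ∃ φ, 5 * d < 16 * φ ∧ 2 * φ ≤ d ∧
      P (a + b - (a + d)) φ := by
    intro d hd1 hd2
    obtain ⟨φ, k1, k2, k3⟩ := h3 d hd1 hd2
    refine ⟨φ, k1, k2, ?_⟩
    rw [show a + b - (a + d) = b - d by ring]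
    exact k3
  have h4' : ∀ d, 4 * g2 ≤ d → d < 8 * g2 → ∃ φ, 5 * d < 16 * φ ∧ 2 * φ ≤ d ∧
      P (a + b - (a + d)) φ ∧ P (a + b - (a + (d - φ))) (d - φ) ∧
      P (a + b - (a + (d + φ))) (d + φ) := by
    intro d hd1 hd2
    obtain ⟨φ, k1, k2, k3, k4, k5⟩ := h4 d hd1 hd2
    refine ⟨φ, k1, k2, ?_, ?_, ?_⟩
    · rw [show a + b - (a + d) = b - d by ring]
      exact k3
    · rw [show a + b - (a + (d - φ)) = b - (d - φ) by ring]
      exact k4
    · rw [show a + b - (a + (d + φ)) = b - (d + φ) by ring]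
      exact k5
  have hab' : 24 * (g2 + g1) ≤ b - a := by linarith
  have heb' : e (a + b - a) ≤ 0 := by
    rw [show a + b - a = b by ring]
    exact heb
  have hneg : ∀ z, a + 4 * g1 ≤ z → z ≤ b - 4 * g2 → e z < 0 := by
    intro z0 hz01 hz02
    by_contra hcon
    obtain ⟨z, hz, hmax⟩ := Finset.exists_max_image (Finset.Icc (a + 4 * g1) (b - 4 * g2)) e
      ⟨z0, Finset.mem_Icc.2 ⟨hz01, hz02⟩⟩
    rw [Finset.mem_Icc] at hz
    have hm : 0 ≤ e z := (not_lt.1 hcon).trans (hmax z0 (Finset.mem_Icc.2 ⟨hz01, hz02⟩))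
    have hmax' : ∀ y, a + 4 * g1 ≤ y → y ≤ b - 4 * g2 → e y ≤ e z := fun y hy1 hy2 =>
      hmax y (Finset.mem_Icc.2 ⟨hy1, hy2⟩)
    by_cases hh : 2 * (z - a) ≤ b - a
    · exact half hW hg1 hg2 hab hP hee hea h1 h2 z hz.1 hh hmax' hm
    · refine half (e := fun y => e (a + b - y)) (e' := fun y => e' (a + b - y))
        (P := fun c φ => P (a + b - c) φ) hW hg2 hg1 hab' (refl hP) (fun y => hee _) heb' h3' h4'
        (a + b - z) (by linarith [hz.2]) (by linarith) (fun y hy1 hy2 => ?_) ?_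
      · show e (a + b - y) ≤ e (a + b - (a + b - z))
        rw [show a + b - (a + b - z) = z by ring]
        exact hmax' _ (by linarith) (by linarith)
      · show 0 ≤ e (a + b - (a + b - z))
        rw [show a + b - (a + b - z) = z by ring]
        exact hm
  refine ⟨hneg, edge hW hg1 hg2 hab hP hee hea h2 hneg, fun d hd1 hd2 => ?_⟩
  have k := edge (e := fun y => e (a + b - y)) (e' := fun y => e' (a + b - y))
    (P := fun c φ => P (a + b - c) φ) hW hg2 hg1 hab' (refl hP) (fun y => hee _) heb' h4'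
    (fun y hy1 hy2 => hneg _ (by linarith) (by linarith)) d hd1 hd2
  have k2 : e' (a + b - (a + d)) < 0 := k
  rw [show a + b - (a + d) = b - d by ring] at k2
  exact k2

end

end RegL

open RegL in
theorem t_reg : S_reg := by
  intro F hF a b α β g1 g2 hg1 hg2 hab hFa hFb h1 h2 h3 h4
  have hW : 0 < b - a := by linarith
  have hee : ∀ z : ℤ, (b - a) * (F (z - 1) - α) - (β - α) * (z - a) ≤
      (b - a) * (F z - α) - (β - α) * (z - a) := by
    intro z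
    have k1 : F (z - 1) ≤ F z := hF (by linarith)
    have k2 : (b - a) * F (z - 1) ≤ (b - a) * F z := mul_le_mul_of_nonneg_left k1 hW.le
    linarith [k2]
  have hP : ∀ c φ : ℤ, Plus F c φ → 2 * ((b - a) * (F c - α) - (β - α) * (c - a)) + (b - a) ≤
      ((b - a) * (F (c - φ - 1) - α) - (β - α) * (c - φ - a)) +
      ((b - a) * (F (c + φ - 1) - α) - (β - α) * (c + φ - a)) := by
    intro c φ h
    unfold Plus at h
    have k := mul_le_mul_of_nonneg_left h hW.le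
    linarith [k]
  have hea : (b - a) * (F (a - 1) - α) - (β - α) * (a - a) ≤ 0 := by
    have k := mul_le_mul_of_nonneg_left hFa hW.le
    linarith [k]
  have heb : (b - a) * (F (b - 1) - α) - (β - α) * (b - a) ≤ 0 := by
    have k := mul_le_mul_of_nonneg_left hFb hW.le
    linarith [k]
  obtain ⟨c1, c2, c3⟩ := core (e := fun z => (b - a) * (F (z - 1) - α) - (β - α) * (z - a))
    (e' := fun z => (b - a) * (F z - α) - (β - α) * (z - a)) (P := Plus F) (W := b - a)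
    hW hg1 hg2 hab hP hee hea heb h1 h2 h3 h4
  refine ⟨fun z hz1 hz2 => ?_, fun d hd1 hd2 => ?_, fun d hd1 hd2 => ?_⟩
  · have k : (b - a) * (F (z - 1) - α) - (β - α) * (z - a) < 0 := c1 z hz1 hz2
    linarith
  · have k : (b - a) * (F (a + d) - α) - (β - α) * (a + d - a) < 0 := c2 d hd1 hd2
    linarith
  · have k : (b - a) * (F (b - d) - α) - (β - α) * (b - d - a) < 0 := c3 d hd1 hd2
    linarith

end Pool.Agent.H188.LB
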