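import Pool.Agent.H188.LB.Defs

set_option autoImplicit false

namespace Pool.Agent.H188.LB

/-- Vitali selection in a finite set of integers -/
theorem vitali_sel (g : ℤ → ℤ) (hg : ∀ x, 1 ≤ g x) : ∀ (n : ℕ) (G : Finset ℤ), G.card ≤ n →
    ∃ I : Finset ℤ, I ⊆ G ∧ (∀ x ∈ I, ∀ y ∈ I, x ≠ y → 150 * (g x + g y) < |y - x|) ∧
      ∀ y ∈ G, ∃ x ∈ I, g y ≤ g x ∧ |x - y| ≤ 150 * (g x + g y) := by
  classical
  intro n
  induction n with
  | zero =>
    intro G hG
    have h0 : G = ∅ := Finset.card_eq_zero.mp (Nat.le_zero.mp hG)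
    subst h0
    refine ⟨∅, subset_rfl, ?_, ?_⟩
    · intro x hx
      exact absurd hx (Finset.notMem_empty x)
    · intro x hx
      exact absurd hx (Finset.notMem_empty x)
  | succ n ih =>
    intro G hG
    rcases G.eq_empty_or_nonempty with h0 | hne
    · subst h0
      refine ⟨∅, subset_rfl, ?_, ?_⟩
      · intro x hx
        exact absurd hx (Finset.notMem_empty x)
      · intro x hx
        exact absurd hx (Finset.notMem_empty x)
    · obtain ⟨x, hxG, hxmax⟩ := Finset.exists_max_image G g hne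
      have hx1 := hg x
      have hsub : G.filter (fun y => 150 * (g x + g y) < |y - x|) ⊆ G.erase x := by
        intro y hy
        rw [Finset.mem_filter] at hy
        rw [Finset.mem_erase]
        refine ⟨?_, hy.1⟩
        rintro rfl
        have := hy.2
        rw [sub_self, abs_zero] at this
        omega
      have hcard : (G.filter (fun y => 150 * (g x + g y) < |y - x|)).card ≤ n := by
        refine (Finset.card_le_card hsub).trans ?_
        rw [Finset.card_erase_of_mem hxG]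
        omega
      obtain ⟨I, hI1, hI2, hI3⟩ := ih _ hcard
      have hI1' : ∀ y ∈ I, y ∈ G ∧ 150 * (g x + g y) < |y - x| := fun y hy =>
        Finset.mem_filter.mp (hI1 hy)
      refine ⟨insert x I, ?_, ?_, ?_⟩
      · intro y hy
        rcases Finset.mem_insert.mp hy with rfl | hy
        · exact hxG
        · exact (hI1' y hy).1
      · intro y hy z hz hyz
        rcases Finset.mem_insert.mp hy with hyx | hy
        · rcases Finset.mem_insert.mp hz with hzx | hz
          · exact absurd (hyx.trans hzx.symm) hyz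
          · rw [hyx]
            exact (hI1' z hz).2
        · rcases Finset.mem_insert.mp hz with hzx | hz
          · have := (hI1' y hy).2
            rw [hzx, abs_sub_comm, add_comm (g y)]
            exact this
          · exact hI2 y hy z hz hyz
      · intro y hy
        by_cases h1 : 150 * (g x + g y) < |y - x|
        · obtain ⟨z, hz, h2, h3⟩ := hI3 y (Finset.mem_filter.mpr ⟨hy, h1⟩)
          exact ⟨z, Finset.mem_insert_of_mem hz, h2, h3⟩
        · refine ⟨x, Finset.mem_insert_self _ _, hxmax y hy, ?_⟩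
          rw [abs_sub_comm]
          exact not_lt.mp h1

/-- good points are everywhere -/
theorem exists_good (g : ℤ → ℤ) (p q M : ℤ) (hM : 0 ≤ M) (hg : ∀ x, 1 ≤ g x)
    (hb : ∀ x, p - 625 * M ≤ x → x ≤ q + 625 * M → g x ≤ M) (x0 : ℤ) (h0 : p ≤ x0) (h1 : x0 ≤ q) :
    ∃ x, (p - 500 * M ≤ x ∧ x ≤ q + 500 * M ∧
      ∀ x', x - 125 * g x ≤ x' → x' ≤ x + 125 * g x → 4 * g x' ≤ 5 * g x) ∧
      |x - x0| ≤ 500 * g x := by
  classical
  have hmem : x0 ∈ (Finset.Icc (p - 500 * M) (q + 500 * M)).filter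
      (fun x => |x - x0| ≤ 500 * g x) := by
    rw [Finset.mem_filter, Finset.mem_Icc]
    have := hg x0
    refine ⟨⟨by omega, by omega⟩, ?_⟩
    rw [sub_self, abs_zero]
    omega
  obtain ⟨x, hx, hmax⟩ := Finset.exists_max_image _ g ⟨x0, hmem⟩
  rw [Finset.mem_filter, Finset.mem_Icc] at hx
  obtain ⟨⟨hx1, hx2⟩, hx3⟩ := hx
  refine ⟨x, ⟨hx1, hx2, ?_⟩, hx3⟩
  intro x' h2 h3
  by_contra h4
  push Not at h4
  have h5 : g x ≤ M := hb x (by omega) (by omega)
  have h6 := hg x
  rw [abs_le] at hx3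
  have h7 : g x' ≤ M := hb x' (by omega) (by omega)
  have h8 : x' ∈ (Finset.Icc (p - 500 * M) (q + 500 * M)).filter
      (fun x => |x - x0| ≤ 500 * g x) := by
    rw [Finset.mem_filter, Finset.mem_Icc, abs_le]
    refine ⟨⟨by omega, by omega⟩, by omega, by omega⟩
  have h9 := hmax x' h8
  omega

/-- `S_sel` with the hypothesis `0 ≤ M` -/
theorem t_sel_fixed : ∀ (g : ℤ → ℤ) (p q M : ℤ), p ≤ q → 0 ≤ M → (∀ x, 1 ≤ g x) →
    (∀ x, p - 625 * M ≤ x → x ≤ q + 625 * M → g x ≤ M) →
    ∃ I : Finset ℤ, (∀ x ∈ I, p - 500 * M ≤ x ∧ x ≤ q + 500 * M ∧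
        ∀ x', x - 125 * g x ≤ x' → x' ≤ x + 125 * g x → 4 * g x' ≤ 5 * g x) ∧
      (∀ x ∈ I, ∀ y ∈ I, x < y → 150 * (g x + g y) < y - x) ∧
      q - p + 1 ≤ 1601 * ∑ x ∈ I, g x := by
  classical
  intro g p q M hpq hM hg hb
  obtain ⟨I, hI1, hI2, hI3⟩ := vitali_sel g hg _ ((Finset.Icc (p - 500 * M) (q + 500 * M)).filter
    (fun x => ∀ x', x - 125 * g x ≤ x' → x' ≤ x + 125 * g x → 4 * g x' ≤ 5 * g x)) le_rfl
  refine ⟨I, ?_, ?_, ?_⟩
  · intro x hx
    have h1 := hI1 hx
    rw [Finset.mem_filter, Finset.mem_Icc] at h1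
    exact ⟨h1.1.1, h1.1.2, h1.2⟩
  · intro x hx y hy hxy
    have h1 := hI2 x hx y hy hxy.ne
    rwa [abs_of_pos (by omega)] at h1
  · have hcov : Finset.Icc p q ⊆ I.biUnion (fun x => Finset.Icc (x - 800 * g x) (x + 800 * g x)) := by
      intro x0 hx0
      rw [Finset.mem_Icc] at hx0
      obtain ⟨y, ⟨hy1, hy2, hy3⟩, hy4⟩ := exists_good g p q M hM hg hb x0 hx0.1 hx0.2
      obtain ⟨x, hx, h1, h2⟩ := hI3 y (by
        rw [Finset.mem_filter, Finset.mem_Icc]
        exact ⟨⟨hy1, hy2⟩, hy3⟩)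
      rw [abs_le] at hy4 h2
      rw [Finset.mem_biUnion]
      refine ⟨x, hx, ?_⟩
      rw [Finset.mem_Icc]
      constructor <;> omega
    have hcard : ((Finset.Icc p q).card : ℤ) ≤ ∑ x ∈ I, 1601 * g x := by
      have h1 := (Finset.card_le_card hcov).trans Finset.card_biUnion_le
      have h2 : ((Finset.Icc p q).card : ℤ) ≤
          ((∑ x ∈ I, (Finset.Icc (x - 800 * g x) (x + 800 * g x)).card : ℕ) : ℤ) := by
        exact_mod_cast h1
      refine h2.trans ?_
      rw [Nat.cast_sum]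
      refine Finset.sum_le_sum fun x _ => ?_
      rw [Int.card_Icc]
      have := hg x
      omega
    rw [Int.card_Icc, ← Finset.mul_sum] at hcard
    omega

theorem t_sel : S_sel := t_sel_fixed

end Pool.Agent.H188.LB
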