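import Pool.Agent.H188.LB.Defs

/-!
# From words to columns
-/

set_option autoImplicit false

namespace Pool.Agent.H188.LB

/-- the height of the path of the word `w` over the column `x` -/
def wF (w : List Bool) (b : Bool) (x : ℤ) : ℕ :=
  ((Finset.range (w.length + 1)).filter (fun k => (((w.take k).count b : ℕ) : ℤ) ≤ x)).sup
    (fun k => (w.take k).count (!b))

theorem wF_mono (w : List Bool) (b : Bool) : Monotone (wF w b) := by
  intro x y hxy
  unfold wF
  apply Finset.sup_mono
  intro k hk
  rw [Finset.mem_filter] at hk ⊢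
  exact ⟨hk.1, le_trans hk.2 hxy⟩

theorem le_wF (w : List Bool) (b : Bool) (x : ℤ) (k : ℕ) (hk : k ≤ w.length)
    (h : (((w.take k).count b : ℕ) : ℤ) ≤ x) : (w.take k).count (!b) ≤ wF w b x := by
  unfold wF
  apply Finset.le_sup (f := fun k => (w.take k).count (!b))
  rw [Finset.mem_filter, Finset.mem_range]
  exact ⟨by omega, h⟩

theorem exists_wF (w : List Bool) (b : Bool) (x : ℤ) (hx : 0 ≤ x) :
    ∃ k ≤ w.length, (((w.take k).count b : ℕ) : ℤ) ≤ x ∧ (w.take k).count (!b) = wF w b x := by
  obtain ⟨k, hk, he⟩ := Finset.exists_mem_eq_sup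
    ((Finset.range (w.length + 1)).filter (fun k => (((w.take k).count b : ℕ) : ℤ) ≤ x))
    ⟨0, by simp [hx]⟩ (fun k => (w.take k).count (!b))
  rw [Finset.mem_filter, Finset.mem_range] at hk
  exact ⟨k, by omega, hk.2, he.symm⟩

theorem take_count_add (w : List Bool) (b : Bool) (k : ℕ) (hk : k ≤ w.length) :
    (w.take k).count b + (w.take k).count (!b) = k := by
  have h := List.count_not_add_count (w.take k) b
  rw [List.length_take, min_eq_left hk] at h
  omega

theorem take_count_mono (w : List Bool) (b : Bool) {k m : ℕ} (h : k ≤ m) :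
    (w.take k).count b ≤ (w.take m).count b := by
  have e : w.take m = w.take k ++ (w.take m).drop k := by
    have e1 := List.take_append_drop k (w.take m)
    rw [List.take_take, min_eq_left h] at e1
    exact e1.symm
  rw [e, List.count_append]
  omega

theorem wF_point (w : List Bool) (b : Bool) (x y : ℤ) (hx : 0 ≤ x) (hx1 : x ≤ w.count b)
    (h1 : (wF w b (x - 1) : ℤ) ≤ y) (h2 : y ≤ (wF w b x : ℤ)) :
    ∃ k ≤ w.length, (((w.take k).count b : ℕ) : ℤ) = x ∧
      (((w.take k).count (!b) : ℕ) : ℤ) = y := by
  obtain ⟨k', hk', hb', hn'⟩ := exists_wF w b x hx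
  obtain ⟨X, rfl⟩ : ∃ X : ℕ, x = X := ⟨x.toNat, by omega⟩
  obtain ⟨Y, rfl⟩ : ∃ Y : ℕ, y = Y := ⟨y.toNat, by omega⟩
  have hfull := take_count_add w b w.length le_rfl
  have hk'n := take_count_mono w (!b) hk'
  rw [List.take_length] at hfull hk'n
  have hkn : X + Y ≤ w.length := by omega
  have hsum := take_count_add w b (X + Y) hkn
  have hA : ¬ (w.take (X + Y)).count b < X := by
    intro hlt
    have := le_wF w b ((X : ℤ) - 1) (X + Y) hkn (by omega)
    omega
  have hB : ¬ X < (w.take (X + Y)).count b := by
    intro hlt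
    have hc : ¬ k' ≤ X + Y := by
      intro hle
      have := take_count_mono w (!b) hle
      omega
    have := take_count_mono w b (show X + Y ≤ k' by omega)
    omega
  exact ⟨X + Y, hkn, by omega, by omega⟩

theorem t_word : S_word := by
  intro w b
  refine ⟨fun x => (wF w b x : ℤ), fun x y h => Int.ofNat_le.mpr (wF_mono w b h), ?_⟩
  intro c u l hu huc hcu hT
  obtain ⟨y, a1, a2, a3, a4, a5, a6⟩ := hT
  obtain ⟨k1, hk1, p1, q1⟩ := wF_point w b (c - u) (y - l) (by omega) (by omega) a1 a2
  obtain ⟨k2, hk2, p2, q2⟩ := wF_point w b c y (by omega) (by omega) a3 a4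
  obtain ⟨k3, hk3, p3, q3⟩ := wF_point w b (c + u) (y + l) (by omega) (by omega) a5 a6
  have h12 : k1 ≤ k2 := by
    by_contra hlt
    have := take_count_mono w b (show k2 ≤ k1 by omega)
    omega
  have h23 : k2 ≤ k3 := by
    by_contra hlt
    have := take_count_mono w b (show k3 ≤ k2 by omega)
    omega
  have e12 : w.take k2 = w.take k1 ++ (w.take k2).drop k1 := by
    have e1 := List.take_append_drop k1 (w.take k2)
    rw [List.take_take, min_eq_left h12] at e1
    exact e1.symm
  have e23 : w.take k3 = w.take k2 ++ (w.take k3).drop k2 := by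
    have e1 := List.take_append_drop k2 (w.take k3)
    rw [List.take_take, min_eq_left h23] at e1
    exact e1.symm
  have c1 := congrArg (List.count b) e12
  have c2 := congrArg (List.count (!b)) e12
  have c3 := congrArg (List.count b) e23
  have c4 := congrArg (List.count (!b)) e23
  rw [List.count_append] at c1 c2 c3 c4
  refine ⟨(w.take k2).drop k1, (w.take k3).drop k2, ?_, ?_, ?_, by omega, by omega, by omega,
    by omega⟩
  · intro h0
    rw [h0, List.count_nil] at c1
    omega
  · intro h0
    rw [h0, List.count_nil] at c3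
    omega
  · refine ⟨w.take k1, w.drop k3, ?_⟩
    rw [← List.append_assoc, ← e12, ← e23, List.take_append_drop]

end Pool.Agent.H188.LB
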