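import Pool.Agent.H188.LB.Order
import Pool.Agent.H188.LB.Good
import Pool.Agent.H188.LB.Link
import Pool.Agent.H188.LB.Reg
import Pool.Agent.H188.LB.Sel
import Pool.Agent.H188.LB.Word

set_option autoImplicit false

namespace Pool.Agent.H188.LB

theorem exists_untouched (C : Finset (ℤ × ℤ)) (a : ℤ) :
    ∃ u, a ≤ u ∧ u ≤ a + C.card ∧ ∀ l, (u, l) ∉ C := by
  classical
  by_contra hcon
  push Not at hcon
  have hsub : Finset.Icc a (a + C.card) ⊆ C.image Prod.fst := by
    intro u hu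
    rw [Finset.mem_Icc] at hu
    obtain ⟨l, hl⟩ := hcon u hu.1 hu.2
    exact Finset.mem_image.mpr ⟨(u, l), hl, rfl⟩
  have h1 := (Finset.card_le_card hsub).trans Finset.card_image_le
  rw [Int.card_Icc] at h1
  omega

/-- existence of the critical scale -/
theorem exists_crit {F : ℤ → ℤ} (hF : Monotone F) {L : ℤ} (hL : 1 ≤ L) (x : ℤ) :
    ∃ g, 1 ≤ g ∧ g ≤ L ∧ g ≤ 32 * (cnt (Nr F x) g : ℤ) ∧
      ∀ S, g < S → S ≤ L → 32 * (cnt (Nr F x) S : ℤ) < S := by
  classical
  have hone : 1 ≤ cnt (Nr F x) 1 := by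
    obtain ⟨c, l, h1, h2, h3⟩ := tch_one hF x
    unfold cnt
    rw [Nat.succ_le_iff, Finset.card_pos]
    refine ⟨1, ?_⟩
    rw [Finset.mem_filter, Finset.mem_Ico]
    exact ⟨⟨le_rfl, by norm_num⟩, c, l, by omega, by omega, h3⟩
  have hne : ((Finset.Icc 1 L).filter (fun s => s ≤ 32 * (cnt (Nr F x) s : ℤ))).Nonempty := by
    refine ⟨1, ?_⟩
    rw [Finset.mem_filter, Finset.mem_Icc]
    exact ⟨⟨le_rfl, hL⟩, by omega⟩
  obtain ⟨g, hg, hmax⟩ := Finset.exists_max_image _ (fun s => s) hne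
  rw [Finset.mem_filter, Finset.mem_Icc] at hg
  refine ⟨g, hg.1.1, hg.1.2, hg.2, ?_⟩
  intro S hS hSL
  by_contra hcon
  push Not at hcon
  have := hmax S (by
    rw [Finset.mem_filter, Finset.mem_Icc]
    exact ⟨⟨by omega, hSL⟩, hcon⟩)
  omega

open Classical in
/-- the recorded scales at `x` -/
noncomputable def Rset (F : ℤ → ℤ) (x g : ℤ) : Finset ℤ :=
  (Finset.Ico g (4 * g)).filter (fun v => ∃ l, RL F x g v l)

theorem Rset_card {F : ℤ → ℤ} {x g : ℤ} (h : g ≤ 32 * (cnt (Nr F x) g : ℤ)) :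
    g ≤ 64 * ((Rset F x g).card : ℤ) := by
  classical
  have hsplit : cnt (Nr F x) g ≤ (Rset F x g).card + (Rset F x g).card := by
    unfold cnt
    have hsub : (Finset.Ico g (2 * g)).filter (Nr F x) ⊆
        Rset F x g ∪ ((Finset.Ico g (2 * g)).filter (fun u => 2 * u ∈ Rset F x g)) := by
      intro u hu
      rw [Finset.mem_filter, Finset.mem_Ico] at hu
      obtain ⟨⟨h1, h2⟩, c, l, h3, h4, h5⟩ := hu
      rw [Finset.mem_union]
      by_cases hN : Nr F c (2 * u)
      · right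
        obtain ⟨c', l', k1, k2, k3⟩ := hN
        rw [Finset.mem_filter, Finset.mem_Ico]
        refine ⟨⟨h1, h2⟩, ?_⟩
        unfold Rset
        rw [Finset.mem_filter, Finset.mem_Ico]
        exact ⟨⟨by omega, by omega⟩, l', by omega, by omega, c', by omega, by omega, k3,
          Or.inr (by omega)⟩
      · left
        unfold Rset
        rw [Finset.mem_filter, Finset.mem_Ico]
        exact ⟨⟨by omega, by omega⟩, l, by omega, by omega, c, by omega, by omega, h5, Or.inl hN⟩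
    refine (Finset.card_le_card hsub).trans ((Finset.card_union_le _ _).trans ?_)
    apply Nat.add_le_add_left
    apply Finset.card_le_card_of_injOn (fun u => 2 * u)
    · intro u hu
      rw [Finset.mem_coe, Finset.mem_filter] at hu
      exact hu.2
    · intro u _ v _ huv
      have : 2 * u = 2 * v := huv
      omega
  omega

theorem main_aux {F : ℤ → ℤ} (hF : Monotone F) {A : ℤ} {C : Finset (ℤ × ℤ)}
    (hC : ∀ c u l, 1 ≤ u → u ≤ c → c + u ≤ A → Tch F c u l → (u, l) ∈ C)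
    {L U : ℤ} (hT : 1 ≤ C.card) (hL : L = 102464 * (C.card : ℤ)) (hA : 169 * L ≤ A)
    (hU1 : 1 ≤ U) (hU2 : U ≤ L) (hU : ∀ c, U ≤ c → c ≤ 84 * L → Plus F c U) : False := by
  classical
  obtain ⟨T, hTdef⟩ : ∃ T : ℤ, T = (C.card : ℤ) := ⟨_, rfl⟩
  have hT1 : 1 ≤ T := by omega
  rw [← hTdef] at hL
  -- untouched scales are convex
  have hPlus : ∀ t, 1 ≤ t → t ≤ 4 * L → (∀ l, (t, l) ∉ C) → ∀ c, t ≤ c → c ≤ 74 * L - 1 →
      Plus F c t := by
    intro t ht1 ht2 htC c0 hc1 hc2
    by_contra hcon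
    have hpat := t_pattern F hF t c0 (A - t) (fun c h1 h2 l hl =>
      htC l (hC c t l ht1 (by omega) (by omega) hl)) hcon
    exact t_link F hF U t (74 * L) (84 * L) hU1 ht1 (by omega)
      (fun c h1 h2 => hU c (by omega) h2) (fun c h1 h2 => hpat c (by omega) (by omega))
  have hglob : ∀ x, 50 * L ≤ x → x ≤ 53 * L → ∀ u, L < 4 * u → u ≤ L →
      ∃ t, 2 * u ≤ t ∧ t < 4 * u ∧ ∀ c, x - 20 * u ≤ c → c ≤ x + 20 * u → Plus F c t := by
    intro x hx1 hx2 u hu1 hu2
    obtain ⟨t, h1, h2, h3⟩ := exists_untouched C (2 * u)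
    refine ⟨t, h1, by omega, fun c hc1 hc2 => hPlus t (by omega) (by omega) h3 c (by omega)
      (by omega)⟩
  choose g hg1 hgL hgc hgS using fun x => exists_crit hF (show 1 ≤ L by omega) x
  have hgT : ∀ x, 50 * L ≤ x → x ≤ 53 * L → g x ≤ 32 * T := by
    intro x hx1 hx2
    have h1 : cnt (Nr F x) (g x) ≤ (C.image Prod.fst).card := by
      unfold cnt
      apply Finset.card_le_card
      intro u hu
      rw [Finset.mem_filter, Finset.mem_Ico] at hu
      obtain ⟨⟨h1, h2⟩, c, l, h3, h4, h5⟩ := hu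
      have := hg1 x
      have := hgL x
      exact Finset.mem_image.mpr ⟨(u, l), hC c u l (by omega) (by omega) (by omega) h5, rfl⟩
    have h2 : (C.image Prod.fst).card ≤ C.card := Finset.card_image_le
    have h3 := hgc x
    omega
  obtain ⟨I, hI1, hI2, hI3⟩ := t_sel g (51 * L) (52 * L) (32 * T) (by omega) (by omega) hg1
    (fun x h1 h2 => hgT x (by omega) (by omega))
  have hIg : ∀ x ∈ I, g x ≤ 32 * T ∧ 1 ≤ g x := fun x hx =>
    ⟨hgT x (by have := hI1 x hx; omega) (by have := hI1 x hx; omega), hg1 x⟩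
  have hCtx : ∀ x ∈ I, ∀ x', x - 125 * g x ≤ x' → x' ≤ x + 125 * g x → Ctx F L (g x) x' := by
    intro x hx x' h1 h2
    have k1 := hI1 x hx
    have k2 := hIg x hx
    refine ⟨hglob x' (by omega) (by omega), fun S hS hSL => hgS x' S ?_ hSL⟩
    have := k1.2.2 x' h1 h2
    omega
  have hR : ∀ x, g x ≤ 64 * ((Rset F x (g x)).card : ℤ) := fun x => Rset_card (hgc x)
  -- choice of the label
  have hlab : ∀ x v, ∃ l, v ∈ Rset F x (g x) → RL F x (g x) v l := by
    intro x v
    by_cases hv : v ∈ Rset F x (g x)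
    · have hv' := hv
      unfold Rset at hv'
      rw [Finset.mem_filter] at hv'
      obtain ⟨l, hl⟩ := hv'.2
      exact ⟨l, fun _ => hl⟩
    · exact ⟨0, fun h => absurd h hv⟩
  choose lab hlab using hlab
  have hlt : ∀ x ∈ I, ∀ y ∈ I, x < y → ∀ v, v ∈ Rset F x (g x) → v ∈ Rset F y (g y) →
      lab x v < lab y v := by
    intro x hx y hy hxy v hvx hvy
    have k1 := hI1 x hx
    have k2 := hIg x hx
    have k3 := hI1 y hy
    have k4 := hIg y hy
    exact order t_link t_good t_reg hF k2.2 k4.2 (hCtx x hx) (hCtx y hy) (hI2 x hx y hy hxy)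
      (by omega) (by omega) (by omega) (hlab x v hvx) (hlab y v hvy)
  have hsum : ∑ x ∈ I, (Rset F x (g x)).card ≤ C.card := by
    rw [← Finset.card_sigma]
    apply Finset.card_le_card_of_injOn (fun p : (_ : ℤ) × ℤ => (p.2, lab p.1 p.2))
    · rintro ⟨x, v⟩ hp
      rw [Finset.mem_coe, Finset.mem_sigma] at hp
      obtain ⟨hx, hv⟩ := hp
      obtain ⟨h1, h2, m, h3, h4, h5, _⟩ := hlab x v hv
      have k1 := hI1 x hx
      have k2 := hIg x hx
      exact hC m v _ (by omega) (by omega) (by omega) h5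
    · rintro ⟨x, v⟩ hp ⟨y, w⟩ hq heq
      rw [Finset.mem_coe, Finset.mem_sigma] at hp hq
      obtain ⟨hx, hv⟩ := hp
      obtain ⟨hy, hw⟩ := hq
      simp only at hx hv hy hw
      have e1 : v = w := congrArg Prod.fst heq
      have e2 : lab x v = lab y w := congrArg Prod.snd heq
      subst e1
      rcases lt_trichotomy x y with h | h | h
      · have := hlt x hx y hy h v hv hw
        omega
      · subst h
        rfl
      · have := hlt y hy x hx h v hw hv
        omega
  have h1 : ∑ x ∈ I, g x ≤ ∑ x ∈ I, 64 * ((Rset F x (g x)).card : ℤ) :=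
    Finset.sum_le_sum fun x _ => hR x
  rw [← Finset.mul_sum] at h1
  have h2 : ((∑ x ∈ I, (Rset F x (g x)).card : ℕ) : ℤ) ≤ (C.card : ℤ) := by exact_mod_cast hsum
  rw [Nat.cast_sum] at h2
  omega

/-- the reflected column function -/
def refl (F : ℤ → ℤ) (A : ℤ) : ℤ → ℤ := fun x => - F (A - 1 - x)

theorem refl_mono {F : ℤ → ℤ} (hF : Monotone F) (A : ℤ) : Monotone (refl F A) := by
  intro x y hxy
  unfold refl
  have := hF (show A - 1 - y ≤ A - 1 - x by omega)
  linarith

theorem refl_tch {F : ℤ → ℤ} {A c u l : ℤ} (h : Tch (refl F A) c u l) : Tch F (A - c) u l := by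
  obtain ⟨y, h1, h2, h3, h4, h5, h6⟩ := h
  unfold refl at h1 h2 h3 h4 h5 h6
  have e1 : A - 1 - (c - u - 1) = A - c + u := by ring
  have e2 : A - 1 - (c - u) = A - c + u - 1 := by ring
  have e3 : A - 1 - (c - 1) = A - c := by ring
  have e4 : A - 1 - c = A - c - 1 := by ring
  have e5 : A - 1 - (c + u - 1) = A - c - u := by ring
  have e6 : A - 1 - (c + u) = A - c - u - 1 := by ring
  rw [e1] at h1
  rw [e2] at h2
  rw [e3] at h3
  rw [e4] at h4
  rw [e5] at h5
  rw [e6] at h6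
  exact ⟨-y, by linarith, by linarith, by linarith, by linarith, by linarith, by linarith⟩

theorem refl_plus {F : ℤ → ℤ} {A c u : ℤ} (h : Minus F (A - c) u) : Plus (refl F A) c u := by
  unfold Minus at h
  unfold Plus refl
  have e1 : A - 1 - (c - u - 1) = A - c + u := by ring
  have e4 : A - 1 - c = A - c - 1 := by ring
  have e5 : A - 1 - (c + u - 1) = A - c - u := by ring
  rw [e1, e4, e5]
  linarith

theorem main {F : ℤ → ℤ} (hF : Monotone F) {A : ℤ} {C : Finset (ℤ × ℤ)}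
    (hC : ∀ c u l, 1 ≤ u → u ≤ c → c + u ≤ A → Tch F c u l → (u, l) ∈ C) :
    A ≤ 17316416 * (C.card : ℤ) + 2 := by
  classical
  by_contra hcon
  push Not at hcon
  have hT : 1 ≤ C.card := by
    obtain ⟨c, l, h1, h2, h3⟩ := tch_one hF 1
    exact Finset.card_pos.mpr ⟨_, hC c 1 l le_rfl h1 (by omega) h3⟩
  obtain ⟨L, hL⟩ : ∃ L : ℤ, L = 102464 * (C.card : ℤ) := ⟨_, rfl⟩
  have hA : 169 * L ≤ A := by omega
  obtain ⟨U, hU1, hU2, hU3⟩ := exists_untouched C 1
  by_cases hall : ∀ c, U ≤ c → c ≤ 84 * L → Plus F c U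
  · exact main_aux hF hC hT hL hA hU1 (by omega) hall
  · push Not at hall
    obtain ⟨c0, hc1, hc2, hc3⟩ := hall
    have hpat := t_pattern F hF U c0 (A - U) (fun c h1 h2 l hl =>
      hU3 l (hC c U l hU1 (by omega) (by omega) hl)) hc3
    refine main_aux (F := refl F A) (refl_mono hF A) ?_ hT hL hA hU1 (by omega) ?_
    · intro c u l h1 h2 h3 h4
      exact hC (A - c) u l h1 (by omega) (by omega) (refl_tch h4)
    · intro c h1 h2
      exact refl_plus (hpat (A - c) (by omega) (by omega))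

end Pool.Agent.H188.LB
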