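import Pool.Agent.H188.LB.LemA

set_option autoImplicit false

namespace Pool.Agent.H188.LB

/-- the hypotheses of Lemma A at the point `x` with critical scale at most `5 g / 4` -/
def Ctx (F : ℤ → ℤ) (L g x : ℤ) : Prop :=
  (∀ u, L < 4 * u → u ≤ L → ∃ t, 2 * u ≤ t ∧ t < 4 * u ∧
      ∀ c, x - 20 * u ≤ c → c ≤ x + 20 * u → Plus F c t) ∧
  (∀ S, 5 * g < 4 * S → S ≤ L → 32 * (cnt (Nr F x) S : ℤ) < S)

theorem Ctx.plus (hlink : S_link) {F : ℤ → ℤ} (hF : Monotone F) {L g x u : ℤ} (h : Ctx F L g x)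
    (hu : 1 ≤ u) (huL : u ≤ L) (hg : 5 * g < 8 * u) (hn : ¬ Nr F x u) {c : ℤ}
    (h1 : x - 10 * u ≤ c) (h2 : c ≤ x + 10 * u) : Plus F c u :=
  lemA hlink hF (G := 5 * g / 4) h.1 (fun S hS hSL => h.2 S (by omega) hSL) u hu huL (by omega)
    hn c h1 h2

/-- a touched scale `v` recorded at the point `x` with critical scale `g` -/
def RL (F : ℤ → ℤ) (x g v l : ℤ) : Prop :=
  g ≤ v ∧ v < 4 * g ∧ ∃ m, x - 120 * g ≤ m ∧ m ≤ x + 120 * g ∧ Tch F m v l ∧
    (¬ Nr F m (2 * v) ∨ 2 * g ≤ v)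

theorem order (hlink : S_link) (hgood : S_good) (hreg : S_reg) {F : ℤ → ℤ} (hF : Monotone F)
    {L x1 x2 g1 g2 u l1 l2 : ℤ} (hg1 : 1 ≤ g1) (hg2 : 1 ≤ g2)
    (hC1 : ∀ x', x1 - 125 * g1 ≤ x' → x' ≤ x1 + 125 * g1 → Ctx F L g1 x')
    (hC2 : ∀ x', x2 - 125 * g2 ≤ x' → x' ≤ x2 + 125 * g2 → Ctx F L g2 x')
    (hsep : 150 * (g1 + g2) < x2 - x1) (hfar : x2 - x1 + 125 * (g1 + g2) ≤ 3 * L)
    (hM1 : 625 * g1 ≤ L) (hM2 : 625 * g2 ≤ L)
    (h1 : RL F x1 g1 u l1) (h2 : RL F x2 g2 u l2) : l1 < l2 := by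
  obtain ⟨hu1, hu1', m1, hm1, hm1', ⟨y1, a1, a2, a3, a4, a5, a6⟩, hN1⟩ := h1
  obtain ⟨hu2, hu2', m2, hm2, hm2', ⟨y2, b1, b2, b3, b4, b5, b6⟩, hN2⟩ := h2
  obtain ⟨a, ha⟩ : ∃ a, a = m1 - u := ⟨_, rfl⟩
  obtain ⟨b, hb⟩ : ∃ b, b = m2 + u := ⟨_, rfl⟩
  have Ca : Ctx F L g1 a := hC1 a (by omega) (by omega)
  have Cb : Ctx F L g2 b := hC2 b (by omega) (by omega)
  have Cm1 : Ctx F L g1 m1 := hC1 m1 (by omega) (by omega)
  have Cm2 : Ctx F L g2 m2 := hC2 m2 (by omega) (by omega)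
  have hab : 24 * (g1 + g2) ≤ b - a := by omega
  have hab2 : b - a ≤ 3 * L := by omega
  have hα : F (a - 1) ≤ y1 - l1 := by rw [ha]; exact a1
  have hβ : F (b - 1) ≤ y2 + l2 := by rw [hb]; exact b5
  obtain ⟨R1, R2, R3⟩ := hreg F hF a b (y1 - l1) (y2 + l2) g1 g2 hg1 hg2 hab hα hβ
    (by
      intro d hd hd2
      obtain ⟨φ, p1, p2, p3⟩ := (hgood (Nr F a) g1 L d hg1 hd Ca.2).1 (by omega)
      exact ⟨φ, p1, p2, Ca.plus hlink hF (by omega) (by omega) (by omega) p3 (by omega) (by omega)⟩)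
    (by
      intro d hd hd2
      obtain ⟨φ, p1, p2, p3, p4, p5⟩ := (hgood (Nr F a) g1 L d hg1 hd Ca.2).2 (by omega)
      exact ⟨φ, p1, p2, Ca.plus hlink hF (by omega) (by omega) (by omega) p3 (by omega) (by omega),
        Ca.plus hlink hF (by omega) (by omega) (by omega) p4 (by omega) (by omega),
        Ca.plus hlink hF (by omega) (by omega) (by omega) p5 (by omega) (by omega)⟩)
    (by
      intro d hd hd2
      obtain ⟨φ, p1, p2, p3⟩ := (hgood (Nr F b) g2 L d hg2 hd Cb.2).1 (by omega)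
      exact ⟨φ, p1, p2, Cb.plus hlink hF (by omega) (by omega) (by omega) p3 (by omega) (by omega)⟩)
    (by
      intro d hd hd2
      obtain ⟨φ, p1, p2, p3, p4, p5⟩ := (hgood (Nr F b) g2 L d hg2 hd Cb.2).2 (by omega)
      exact ⟨φ, p1, p2, Cb.plus hlink hF (by omega) (by omega) (by omega) p3 (by omega) (by omega),
        Cb.plus hlink hF (by omega) (by omega) (by omega) p4 (by omega) (by omega),
        Cb.plus hlink hF (by omega) (by omega) (by omega) p5 (by omega) (by omega)⟩)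
  obtain ⟨W, hW⟩ : ∃ W, W = b - a := ⟨_, rfl⟩
  obtain ⟨δ, hδ⟩ : ∃ δ, δ = y2 + l2 - (y1 - l1) := ⟨_, rfl⟩
  have hWpos : 0 < W := by omega
  rw [← hW, ← hδ] at R1 R2 R3
  have claim1 : W * (2 * l1) < δ * (2 * u) := by
    have hle : W * (2 * l1) ≤ W * (F (a + 2 * u) - (y1 - l1)) := by
      apply mul_le_mul_of_nonneg_left _ hWpos.le
      have e : a + 2 * u = m1 + u := by omega
      rw [e]
      linarith
    refine lt_of_le_of_lt hle ?_
    rcases lt_or_ge u (2 * g1) with hlt | hge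
    · have hNr : ¬ Nr F m1 (2 * u) := by
        rcases hN1 with h | h
        · exact h
        · omega
      have hP : Plus F (a + 2 * u) (2 * u) := Cm1.plus hlink hF (by omega) (by omega) (by omega) hNr
        (by omega) (by omega)
      unfold Plus at hP
      have e1 : a + 2 * u - 2 * u - 1 = a - 1 := by ring
      have e2 : a + 2 * u + 2 * u - 1 = a + 4 * u - 1 := by ring
      rw [e1, e2] at hP
      have hz := R1 (a + 4 * u) (by omega) (by omega)
      have e3 : a + 4 * u - a = 4 * u := by ring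
      rw [e3] at hz
      have h3 : 2 * (W * (F (a + 2 * u) - (y1 - l1))) + W ≤ W * (F (a + 4 * u - 1) - (y1 - l1)) := by
        have := mul_le_mul_of_nonneg_left (show 2 * (F (a + 2 * u) - (y1 - l1)) + 1 ≤
          F (a + 4 * u - 1) - (y1 - l1) by linarith) hWpos.le
        linarith
      linarith
    · exact R2 (2 * u) (by omega) (by omega)
  have claim2 : δ * (2 * u) < W * (2 * l2) := by
    have hle : W * (-(2 * l2)) ≤ W * (F (b - 2 * u) - (y2 + l2)) := by
      apply mul_le_mul_of_nonneg_left _ hWpos.le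
      have e : b - 2 * u = m2 - u := by omega
      rw [e]
      linarith
    have hlt2 : W * (F (b - 2 * u) - (y2 + l2)) < -(δ * (2 * u)) := by
      rcases lt_or_ge u (2 * g2) with hlt | hge
      · have hNr : ¬ Nr F m2 (2 * u) := by
          rcases hN2 with h | h
          · exact h
          · omega
        have hP : Plus F (b - 2 * u) (2 * u) := Cm2.plus hlink hF (by omega) (by omega) (by omega)
          hNr (by omega) (by omega)
        unfold Plus at hP
        have e1 : b - 2 * u - 2 * u - 1 = b - 4 * u - 1 := by ring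
        have e2 : b - 2 * u + 2 * u - 1 = b - 1 := by ring
        rw [e1, e2] at hP
        have hz := R1 (b - 4 * u) (by omega) (by omega)
        have e3 : b - 4 * u - a = W - 4 * u := by omega
        rw [e3] at hz
        have h3 : 2 * (W * (F (b - 2 * u) - (y2 + l2))) + W ≤
            W * (F (b - 4 * u - 1) - (y1 - l1)) - W * δ := by
          have := mul_le_mul_of_nonneg_left (show 2 * (F (b - 2 * u) - (y2 + l2)) + 1 ≤
            F (b - 4 * u - 1) - (y1 - l1) - δ by linarith) hWpos.le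
          linarith
        nlinarith
      · exact R3 (2 * u) (by omega) (by omega)
    linarith
  have h4 : W * (2 * l1) < W * (2 * l2) := lt_trans claim1 claim2
  have h5 := lt_of_mul_lt_mul_left h4 hWpos.le
  linarith

end Pool.Agent.H188.LB
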