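import Pool.Agent.H188.LB.Defs

set_option autoImplicit false

namespace Pool.Agent.H188.LB

theorem tch_of {F : ℤ → ℤ} (hF : Monotone F) {c u y : ℤ} (hy1 : F (c - 1) ≤ y) (hy2 : y ≤ F c)
    (h1 : F (c - u - 1) + F (c + u - 1) ≤ 2 * y) (h2 : 2 * y ≤ F (c - u) + F (c + u)) :
    ∃ l, Tch F c u l := by
  have m1 : F (c - u - 1) ≤ F (c - u) := hF (by omega)
  have m2 : F (c + u - 1) ≤ F (c + u) := hF (by omega)
  rcases le_total (F (c - u - 1)) (2 * y - F (c + u)) with h | h
  · refine ⟨y - (2 * y - F (c + u)), y, ?_, ?_, hy1, hy2, ?_, ?_⟩ <;> linarith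
  · refine ⟨y - F (c - u - 1), y, ?_, ?_, hy1, hy2, ?_, ?_⟩ <;> linarith

theorem t_pattern : S_pattern := by
  intro F hF u c0 c1 hno hnp
  have key : ∀ n : ℕ, c0 + n ≤ c1 → F (c0 + n - u) + F (c0 + n + u) + 1 ≤ 2 * F (c0 + n) := by
    intro n
    induction n with
    | zero =>
      intro h
      simp only [Nat.cast_zero, add_zero] at h ⊢
      by_contra hcon
      push Not at hcon
      obtain ⟨l, hl⟩ := tch_of hF (c := c0) (u := u) (y := F c0) (hF (by omega)) le_rfl
        (by unfold Plus at hnp; push Not at hnp; linarith) (by linarith)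
      exact hno c0 le_rfl h l hl
    | succ n ih =>
      intro h
      push_cast at h ⊢
      have h1 := ih (by omega)
      by_contra hcon
      push Not at hcon
      have hm : F (c0 + n) ≤ F (c0 + (n + 1)) := hF (by omega)
      have e1 : c0 + ((n : ℤ) + 1) - u - 1 = c0 + n - u := by ring
      have e2 : c0 + ((n : ℤ) + 1) + u - 1 = c0 + n + u := by ring
      have e3 : c0 + ((n : ℤ) + 1) - 1 = c0 + n := by ring
      by_cases h2 : 2 * F (c0 + n) ≤ F (c0 + (n + 1) - u) + F (c0 + (n + 1) + u)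
      · obtain ⟨l, hl⟩ := tch_of hF (c := c0 + (n + 1)) (u := u) (y := F (c0 + n))
          (by rw [e3]) hm (by rw [e1, e2]; linarith) h2
        exact hno _ (by omega) h l hl
      · push Not at h2
        linarith
  intro c hc1 hc2
  obtain ⟨n, hn⟩ : ∃ n : ℕ, c = c0 + (n + 1) := ⟨(c - c0 - 1).toNat, by omega⟩
  have hn1 := key n (by omega)
  unfold Minus
  by_contra hcon
  push Not at hcon
  have e1 : c0 + ((n : ℤ) + 1) - u - 1 = c0 + n - u := by ring
  have e2 : c0 + ((n : ℤ) + 1) + u - 1 = c0 + n + u := by ring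
  have e3 : c0 + ((n : ℤ) + 1) - 1 = c0 + n := by ring
  obtain ⟨l, hl⟩ := tch_of hF (c := c) (u := u) (y := F (c - 1)) le_rfl
    (hF (by omega)) (by rw [hn, e1, e2, e3]; linarith) (by linarith)
  exact hno c (by omega) hc2 l hl

/-- scale one is touched at `x` or `x + 1` -/
theorem tch_one {F : ℤ → ℤ} (hF : Monotone F) (x : ℤ) :
    ∃ c l, x ≤ c ∧ c ≤ x + 1 ∧ Tch F c 1 l := by
  by_contra hcon
  push Not at hcon
  have h := t_pattern F hF 1 x (x + 1) (fun c h1 h2 l => hcon c l h1 h2) ?_ (x + 1) (by omega) le_rfl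
  · unfold Minus at h
    have h1 : F (x + 1 - 1) ≤ F (x + 1 + 1) := hF (by omega)
    have h2 : F (x + 1 - 1) = F x := by congr 1; ring
    linarith
  · unfold Plus
    have h1 : F (x - 1 - 1) ≤ F x := hF (by omega)
    have h2 : F (x + 1 - 1) = F x := by congr 1; ring
    intro h3
    linarith

end Pool.Agent.H188.LB
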